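import Pool.Agent.TH349.ORP.Perm

/-!
Fixed points on the sets of `p`-th roots.
-/

set_option autoImplicit false

open Pool.Agent.TH965.St

namespace Pool.Agent.TH349.ORP

/-- the product of two Galois stable sets -/
def prodS (A B : Set Qb) (hA : ∀ (g : GQ), ∀ x ∈ A, g x ∈ A) (hB : ∀ (g : GQ), ∀ x ∈ B, g x ∈ B) :
    SubMulAction GQ (Qb × Qb) where
  carrier := A ×ˢ B
  smul_mem' := fun g x hx => ⟨hA g x.1 hx.1, hB g x.2 hx.2⟩

/-- number of elements of `A` fixed by `g` -/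
noncomputable def nfix (A : Set Qb) (g : GQ) : ℕ := Nat.card {x : Qb // x ∈ A ∧ g x = x}

theorem fixc_prod (A B : Set Qb) (hA : ∀ (g : GQ), ∀ x ∈ A, g x ∈ A)
    (hB : ∀ (g : GQ), ∀ x ∈ B, g x ∈ B) (g : GQ) :
    fixc GQ (prodS A B hA hB) g = nfix A g * nfix B g := by
  unfold fixc nfix
  rw [← Nat.card_prod]
  refine Nat.card_congr ⟨fun x => (⟨x.1.1.1, x.1.2.1, ?_⟩, ⟨x.1.1.2, x.1.2.2, ?_⟩),
    fun y => ⟨⟨(y.1.1, y.2.1), ⟨y.1.2.1, y.2.2.1⟩⟩, ?_⟩, fun x => rfl, fun y => rfl⟩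
  · have := congrArg Subtype.val x.2
    exact congrArg Prod.fst this
  · have := congrArg Subtype.val x.2
    exact congrArg Prod.snd this
  · apply Subtype.ext
    exact Prod.ext y.1.2.2 y.2.2.2

theorem finite_prodS (A B : Set Qb) (hA : ∀ (g : GQ), ∀ x ∈ A, g x ∈ A)
    (hB : ∀ (g : GQ), ∀ x ∈ B, g x ∈ B) (fA : A.Finite) (fB : B.Finite) :
    Finite (prodS A B hA hB) := (fA.prod fB).to_subtype

theorem nfix_one (g : GQ) : nfix {1} g = 1 := by
  unfold nfix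
  rw [Nat.card_eq_one_iff_unique]
  refine ⟨⟨?_⟩, ⟨⟨1, rfl, map_one g⟩⟩⟩
  rintro ⟨x, hx, -⟩ ⟨y, hy, -⟩
  exact Subtype.ext ((Set.mem_singleton_iff.1 hx).trans (Set.mem_singleton_iff.1 hy).symm)

section roots

variable {p : ℕ} [hp : Fact p.Prime]

/-- powers of `ζ` with exponents in `ZMod p` -/
noncomputable def zz (ζ : Qb) (j : ZMod p) : Qb := ζ ^ j.val

theorem zz_natCast {ζ : Qb} (hζ : IsPrimitiveRoot ζ p) (n : ℕ) :
    zz (p := p) ζ (n : ZMod p) = ζ ^ n := by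
  unfold zz
  rw [ZMod.val_natCast, ← pow_eq_pow_mod n hζ.pow_eq_one]

theorem zz_add {ζ : Qb} (hζ : IsPrimitiveRoot ζ p) (i j : ZMod p) :
    zz ζ (i + j) = zz ζ i * zz ζ j := by
  have h : i + j = ((i.val + j.val : ℕ) : ZMod p) := by
    rw [Nat.cast_add, ZMod.natCast_zmod_val, ZMod.natCast_zmod_val]
  rw [h, zz_natCast hζ, pow_add]
  rfl

theorem zz_inj {ζ : Qb} (hζ : IsPrimitiveRoot ζ p) {i j : ZMod p} (h : zz ζ i = zz ζ j) :
    i = j :=
  ZMod.val_injective p (hζ.pow_inj (ZMod.val_lt i) (ZMod.val_lt j) h)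

theorem zz_zero {ζ : Qb} : zz (p := p) ζ 0 = 1 := by
  unfold zz
  rw [ZMod.val_zero, pow_zero]

theorem zz_pow {ζ : Qb} (hζ : IsPrimitiveRoot ζ p) (j : ZMod p) : zz ζ j ^ p = 1 := by
  unfold zz
  rw [← pow_mul, mul_comm, pow_mul, hζ.pow_eq_one, one_pow]

theorem zz_ne {ζ : Qb} (hζ : IsPrimitiveRoot ζ p) (j : ZMod p) : zz ζ j ≠ 0 := by
  intro h
  have h1 := zz_pow hζ j
  rw [h, zero_pow hp.out.ne_zero] at h1
  exact zero_ne_one h1

theorem zz_npow {ζ : Qb} (hζ : IsPrimitiveRoot ζ p) (j : ZMod p) (n : ℕ) :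
    zz ζ j ^ n = zz ζ ((n : ZMod p) * j) := by
  have h : (n : ZMod p) * j = ((n * j.val : ℕ) : ZMod p) := by
    rw [Nat.cast_mul, ZMod.natCast_zmod_val]
  rw [h, zz_natCast hζ, mul_comm, pow_mul]
  rfl

theorem exists_zz {ζ : Qb} (hζ : IsPrimitiveRoot ζ p) {x : Qb} (hx : x ^ p = 1) :
    ∃ j : ZMod p, x = zz ζ j := by
  obtain ⟨i, -, h⟩ := hζ.eq_pow_of_pow_eq_one hx
  exact ⟨(i : ZMod p), by rw [zz_natCast hζ, h]⟩

theorem exists_zz_mul {ζ : Qb} (hζ : IsPrimitiveRoot ζ p) {x r : Qb} (hr : r ≠ 0)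
    (hx : x ^ p = r ^ p) : ∃ j : ZMod p, x = zz ζ j * r := by
  obtain ⟨j, h⟩ := exists_zz hζ (x := x / r) (by rw [div_pow, hx, div_self (pow_ne_zero _ hr)])
  exact ⟨j, by rw [← h, div_mul_cancel₀ _ hr]⟩

theorem map_zz {ζ : Qb} (hζ : IsPrimitiveRoot ζ p) (g : GQ) {c : ZMod p} (hc : g ζ = zz ζ c)
    (j : ZMod p) : g (zz ζ j) = zz ζ (c * j) := by
  have h : c * j = (j.val : ZMod p) * c := by rw [ZMod.natCast_zmod_val, mul_comm]
  rw [h, ← zz_npow hζ, ← hc]
  unfold zz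
  rw [map_pow]

/-- number of solutions of `c j + k = j` -/
noncomputable def FF (p : ℕ) (c k : ZMod p) : ℕ := Nat.card {j : ZMod p // c * j + k = j}

theorem nfix_roots {ζ : Qb} (hζ : IsPrimitiveRoot ζ p) (g : GQ) {c : ZMod p} (hc : g ζ = zz ζ c)
    {r : Qb} (hr : r ≠ 0) {k : ZMod p} (hk : g r = zz ζ k * r) :
    nfix {x | x ^ p = r ^ p} g = FF p c k := by
  unfold nfix FF
  symm
  refine Nat.card_congr (Equiv.ofBijective (fun j => ⟨zz ζ j.1 * r, ?_, ?_⟩) ⟨?_, ?_⟩)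
  · rw [Set.mem_ofPred_eq, mul_pow, zz_pow hζ, one_mul]
  · rw [map_mul, map_zz hζ g hc, hk, ← mul_assoc, ← zz_add hζ, j.2]
  · rintro ⟨i, hi⟩ ⟨j, hj⟩ h
    have h1 : zz ζ i * r = zz ζ j * r := congrArg Subtype.val h
    exact Subtype.ext (zz_inj hζ (mul_right_cancel₀ hr h1))
  · rintro ⟨x, hx, hgx⟩
    obtain ⟨j, rfl⟩ := exists_zz_mul hζ hr hx
    refine ⟨⟨j, ?_⟩, rfl⟩
    rw [map_mul, map_zz hζ g hc, hk, ← mul_assoc, ← zz_add hζ] at hgx
    exact zz_inj hζ (mul_right_cancel₀ hr hgx)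

theorem FF_of_ne {c : ZMod p} (hc : c ≠ 1) (k : ZMod p) : FF p c k = 1 := by
  unfold FF
  rw [Nat.card_eq_one_iff_unique]
  have h : (1 - c) ≠ 0 := sub_ne_zero.2 hc.symm
  refine ⟨⟨?_⟩, ⟨⟨k / (1 - c), ?_⟩⟩⟩
  · rintro ⟨i, hi⟩ ⟨j, hj⟩
    apply Subtype.ext
    have h1 : (1 - c) * i = (1 - c) * j := by linear_combination hj - hi
    exact mul_left_cancel₀ h h1
  · field_simp
    ring

theorem FF_one_zero : FF p 1 0 = p := by
  unfold FF
  rw [show (Nat.card {j : ZMod p // 1 * j + 0 = j}) = Nat.card (ZMod p) from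
    Nat.card_congr (Equiv.subtypeUnivEquiv (fun j => by ring)), Nat.card_zmod]

theorem FF_one_ne {k : ZMod p} (hk : k ≠ 0) : FF p 1 k = 0 := by
  unfold FF
  rw [Nat.card_eq_zero]
  left
  constructor
  rintro ⟨j, hj⟩
  apply hk
  linear_combination hj

theorem nfix_prim {ζ : Qb} (hζ : IsPrimitiveRoot ζ p) (g : GQ) {c : ZMod p} (hc : g ζ = zz ζ c) :
    nfix {x | x ^ p = 1 ∧ x ≠ 1} g = if c = 1 then p - 1 else 0 := by
  have h0 : nfix {x | x ^ p = 1 ∧ x ≠ 1} g =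
      Nat.card {j : {j : ZMod p // c * j + 0 = j} // j.1 ≠ 0} := by
    unfold nfix
    symm
    refine Nat.card_congr (Equiv.ofBijective (fun j => ⟨zz ζ j.1.1, ⟨?_, ?_⟩, ?_⟩) ⟨?_, ?_⟩)
    · exact zz_pow hζ _
    · intro h
      apply j.2
      apply zz_inj hζ
      rw [zz_zero, h]
    · rw [map_zz hζ g hc]
      have := j.1.2
      rw [add_zero] at this
      rw [this]
    · rintro ⟨⟨i, hi⟩, hi'⟩ ⟨⟨j, hj⟩, hj'⟩ h
      have h1 : zz ζ i = zz ζ j := congrArg Subtype.val h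
      have h2 := zz_inj hζ h1
      subst h2
      rfl
    · rintro ⟨x, ⟨hx, hx1⟩, hgx⟩
      obtain ⟨j, rfl⟩ := exists_zz hζ hx
      refine ⟨⟨⟨j, ?_⟩, ?_⟩, rfl⟩
      · rw [map_zz hζ g hc] at hgx
        rw [add_zero, zz_inj hζ hgx]
      · rintro h
        apply hx1
        have h' : j = 0 := h
        rw [h', zz_zero]
  rw [h0]
  by_cases h : c = 1
  · subst h
    rw [if_pos rfl]
    have e : {j : {j : ZMod p // 1 * j + 0 = j} // j.1 ≠ 0} ≃ {j : ZMod p // j ≠ 0} :=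
      { toFun := fun j => ⟨j.1.1, j.2⟩
        invFun := fun j => ⟨⟨j.1, by ring⟩, j.2⟩
        left_inv := fun j => rfl
        right_inv := fun j => rfl }
    rw [Nat.card_congr e, Nat.card_eq_fintype_card, Fintype.card_subtype_compl,
      Fintype.card_subtype_eq, ZMod.card]
  · rw [if_neg h, Nat.card_eq_zero]
    left
    constructor
    rintro ⟨⟨j, hj⟩, hj'⟩
    apply hj'
    have h1 : (c - 1) * j = 0 := by linear_combination hj
    exact (mul_eq_zero.1 h1).resolve_left (sub_ne_zero.2 h)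

/-- the counting identity -/
theorem FF_identity (c s t : ZMod p) :
    (if c = 1 then p - 1 else 0) * FF p c s + ∑ i : ZMod p, FF p c (i * s + t) =
      1 + (FF p c s * FF p c t + (p - 2) * FF p c s + (if c = 1 then p - 1 else 0)) := by
  have hp2 := hp.out.two_le
  obtain ⟨q, hq⟩ : ∃ q, p = q + 2 := ⟨p - 2, by omega⟩
  by_cases hc : c = 1
  · subst hc
    rw [if_pos rfl]
    by_cases hs : s = 0
    · subst hs
      rw [FF_one_zero]
      simp only [mul_zero, zero_add, Finset.sum_const, Finset.card_univ, ZMod.card, smul_eq_mul]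
      by_cases ht : t = 0
      · subst ht
        rw [FF_one_zero]
        subst hq
        rw [show q + 2 - 1 = q + 1 by omega, show q + 2 - 2 = q by omega]
        ring
      · rw [FF_one_ne ht]
        subst hq
        rw [show q + 2 - 1 = q + 1 by omega, show q + 2 - 2 = q by omega]
        ring
    · rw [FF_one_ne hs]
      have h1 : ∑ i : ZMod p, FF p 1 (i * s + t) = p := by
        rw [Finset.sum_eq_single (-t / s)]
        · rw [show -t / s * s + t = 0 by field_simp; ring, FF_one_zero]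
        · intro i _ hi
          apply FF_one_ne
          intro h
          apply hi
          field_simp
          linear_combination h
        · intro h
          exact absurd (Finset.mem_univ _) h
      rw [h1]
      subst hq
      rw [show q + 2 - 1 = q + 1 by omega, show q + 2 - 2 = q by omega]
      ring
  · rw [if_neg hc]
    simp only [FF_of_ne hc, Finset.sum_const, Finset.card_univ, ZMod.card, smul_eq_mul]
    omega

/-- the identity between numbers of fixed points on sets of roots -/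
theorem nfix_identity {u v ζ : Qb} (hζ : IsPrimitiveRoot ζ p) (hu : u ≠ 0) (hv : v ≠ 0)
    (g : GQ) (hu' : g (u ^ p) = u ^ p) (hv' : g (v ^ p) = v ^ p) :
    nfix {x | x ^ p = 1 ∧ x ≠ 1} g * nfix {x | x ^ p = u ^ p} g +
      ∑ i ∈ Finset.range p, nfix {x | x ^ p = (u ^ i * v) ^ p} g =
      1 + (nfix {x | x ^ p = u ^ p} g * nfix {x | x ^ p = v ^ p} g +
        (p - 2) * nfix {x | x ^ p = u ^ p} g + nfix {x | x ^ p = 1 ∧ x ≠ 1} g) := by
  obtain ⟨c, hc⟩ := exists_zz hζ (x := g ζ) (by rw [← map_pow, hζ.pow_eq_one, map_one])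
  obtain ⟨s, hs⟩ := exists_zz_mul hζ hu (x := g u) (by rw [← map_pow, hu'])
  obtain ⟨t, ht⟩ := exists_zz_mul hζ hv (x := g v) (by rw [← map_pow, hv'])
  have h1 : ∀ i : ℕ, nfix {x | x ^ p = (u ^ i * v) ^ p} g = FF p c ((i : ZMod p) * s + t) := by
    intro i
    apply nfix_roots hζ g hc (mul_ne_zero (pow_ne_zero _ hu) hv)
    rw [map_mul, map_pow, hs, ht, mul_pow, zz_npow hζ, zz_add hζ]
    ring
  have h2 : ∑ i ∈ Finset.range p, nfix {x | x ^ p = (u ^ i * v) ^ p} g =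
      ∑ i : ZMod p, FF p c (i * s + t) := by
    rw [Finset.sum_congr rfl fun i _ => h1 i]
    rw [Finset.sum_range]
    have := hp.out.pos
    refine Fintype.sum_equiv (ZMod.finEquiv p).toEquiv _ _ fun i => ?_
    congr 3
    obtain ⟨q, hq⟩ : ∃ q, p = q + 1 := ⟨p - 1, by omega⟩
    subst hq
    exact Fin.cast_val_eq_self i
  rw [nfix_prim hζ g hc, nfix_roots hζ g hc hu hs, nfix_roots hζ g hc hv ht, h2]
  exact FF_identity c s t

end roots

end Pool.Agent.TH349.ORP
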