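import Pool.Agent.TH965.St.Defs

/-!
Permutation characters of the absolute Galois group of `ℚ` and finite Galois stable sets.
-/

set_option autoImplicit false

open Pool.Agent.TH965.St

namespace Pool.Agent.TH349.ORP

/-- The number of cosets of `G_K` in `G_ℚ` fixed by `g`: the permutation character of the Galois
set `G_ℚ/G_K = Hom(K, Qb)`. -/
noncomputable def perm (K : IntermediateField ℚ Qb) (g : GQ) : ℕ :=
  Nat.card {q : GQ ⧸ K.fixingSubgroup // g • q = q}

section general

variable {G : Type} [Group G] {X : Type} [MulAction G X]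

/-- number of fixed points -/
noncomputable def fixc (G : Type) [Group G] (X : Type) [MulAction G X] (g : G) : ℕ :=
  Nat.card {x : X // g • x = x}

theorem fixc_orbits [Finite X] :
    ∃ (n : ℕ) (r : Fin n → X), ∀ g : G, fixc G X g =
      ∑ a, Nat.card {q : G ⧸ MulAction.stabilizer G (r a) // g • q = q} := by
  classical
  let Om := MulAction.orbitRel.Quotient G X
  have : Finite Om := Quotient.finite _
  have := Fintype.ofFinite Om
  let e : Om ≃ Fin (Fintype.card Om) := Fintype.equivFin Om
  refine ⟨Fintype.card Om, fun a => (e.symm a).out, fun g => ?_⟩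
  rw [show (∑ a, Nat.card {q : G ⧸ MulAction.stabilizer G ((e.symm a).out) // g • q = q}) =
    ∑ w : Om, Nat.card {q : G ⧸ MulAction.stabilizer G w.out // g • q = q} from
    e.symm.sum_comp (fun w : Om =>
      Nat.card {q : G ⧸ MulAction.stabilizer G w.out // g • q = q})]
  have hfin : ∀ w : Om, Finite {q : G ⧸ MulAction.stabilizer G w.out // g • q = q} := by
    intro w
    have : Finite (G ⧸ MulAction.stabilizer G w.out) :=
      Finite.of_injective _ (MulAction.injective_ofQuotientStabilizer G w.out)
    infer_instance
  rw [← Nat.card_sigma]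
  unfold fixc
  symm
  refine Nat.card_congr (Equiv.ofBijective
    (fun s : (Σ w : Om, {q : G ⧸ MulAction.stabilizer G w.out // g • q = q}) =>
      (⟨MulAction.ofQuotientStabilizer G s.1.out s.2.1, ?_⟩ : {x : X // g • x = x})) ⟨?_, ?_⟩)
  · rw [← MulAction.ofQuotientStabilizer_smul, s.2.2]
  · rintro ⟨w, q, hq⟩ ⟨w', q', hq'⟩ h
    have h1 : MulAction.ofQuotientStabilizer G w.out q =
      MulAction.ofQuotientStabilizer G w'.out q' := congrArg Subtype.val h
    have h2 : w = w' := by
      have h3 : MulAction.ofQuotientStabilizer G w.out q ∈ MulAction.orbit G w.out :=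
        MulAction.ofQuotientStabilizer_mem_orbit G w.out q
      have h4 : MulAction.ofQuotientStabilizer G w'.out q' ∈ MulAction.orbit G w'.out :=
        MulAction.ofQuotientStabilizer_mem_orbit G w'.out q'
      rw [h1] at h3
      have h5 : MulAction.orbit G w.out = MulAction.orbit G w'.out := by
        rw [← MulAction.orbit_eq_iff.2 h3, ← MulAction.orbit_eq_iff.2 h4]
      have h6 : w.out ∈ MulAction.orbit G w'.out := by
        rw [← h5]; exact MulAction.mem_orbit_self _
      have h7 : (Quotient.mk (MulAction.orbitRel G X) w.out) =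
        Quotient.mk (MulAction.orbitRel G X) w'.out := Quotient.sound h6
      rwa [Quotient.out_eq, Quotient.out_eq] at h7
    subst h2
    have h3 := MulAction.injective_ofQuotientStabilizer G w.out h1
    subst h3
    rfl
  · rintro ⟨x, hx⟩
    let w : Om := Quotient.mk (MulAction.orbitRel G X) x
    have h1 : (Quotient.mk (MulAction.orbitRel G X) w.out) = w := Quotient.out_eq w
    have h2 : x ∈ MulAction.orbit G w.out := by
      have h3 : (MulAction.orbitRel G X).r x w.out := Quotient.exact h1.symm
      exact h3
    obtain ⟨s, hs⟩ := h2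
    refine ⟨⟨w, ⟨(s : G ⧸ MulAction.stabilizer G w.out), ?_⟩⟩, ?_⟩
    · apply MulAction.injective_ofQuotientStabilizer G w.out
      rw [MulAction.ofQuotientStabilizer_smul, MulAction.ofQuotientStabilizer_mk]
      have : s • w.out = x := hs
      rw [this, hx]
    · apply Subtype.ext
      exact hs

end general

/-- the field generated by the two entries of a pair -/
noncomputable def fld (s : Qb × Qb) : IntermediateField ℚ Qb :=
  IntermediateField.adjoin ℚ {s.1, s.2}

theorem stab_eq (s : Qb × Qb) : MulAction.stabilizer GQ s = (fld s).fixingSubgroup := by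
  ext g
  rw [MulAction.mem_stabilizer_iff, IntermediateField.mem_fixingSubgroup_iff]
  constructor
  · intro h x hx
    have h1 : g s.1 = s.1 := congrArg Prod.fst h
    have h2 : g s.2 = s.2 := congrArg Prod.snd h
    have h3 : fld s ≤ IntermediateField.fixedField (Subgroup.zpowers g) := by
      unfold fld
      rw [IntermediateField.adjoin_le_iff]
      rintro y (rfl | rfl)
      · rw [SetLike.mem_coe, IntermediateField.mem_fixedField_iff]
        intro f hf
        obtain ⟨k, rfl⟩ := Subgroup.mem_zpowers_iff.1 hf
        have : g ^ k ∈ MulAction.stabilizer GQ s.1 :=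
          zpow_mem (show g ∈ MulAction.stabilizer GQ s.1 from h1) k
        exact this
      · rw [SetLike.mem_coe, IntermediateField.mem_fixedField_iff]
        intro f hf
        obtain ⟨k, rfl⟩ := Subgroup.mem_zpowers_iff.1 hf
        have : g ^ k ∈ MulAction.stabilizer GQ s.2 :=
          zpow_mem (show g ∈ MulAction.stabilizer GQ s.2 from h2) k
        exact this
    exact (IntermediateField.mem_fixedField_iff _ x).1 (h3 hx) g (Subgroup.mem_zpowers g)
  · intro h
    apply Prod.ext
    · exact h s.1 (IntermediateField.subset_adjoin _ _ (by simp))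
    · exact h s.2 (IntermediateField.subset_adjoin _ _ (by simp))

theorem fixc_fields (S : SubMulAction GQ (Qb × Qb)) (hS : Finite S) :
    ∃ (n : ℕ) (r : Fin n → Qb × Qb), (∀ a, r a ∈ S) ∧ ∀ g : GQ, fixc GQ S g =
      ∑ a, perm (fld (r a)) g := by
  obtain ⟨n, r, h⟩ := fixc_orbits (G := GQ) (X := S)
  refine ⟨n, fun a => (r a : Qb × Qb), fun a => (r a).2, fun g => ?_⟩
  rw [h g]
  refine Finset.sum_congr rfl fun a _ => ?_
  unfold perm
  have e : MulAction.stabilizer GQ (r a) = (fld (r a : Qb × Qb)).fixingSubgroup := by
    rw [← stab_eq, SubMulAction.stabilizer_of_subMul]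
  rw [e]

end Pool.Agent.TH349.ORP
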