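import Pool.Agent.TH349.ORP.Count

/-!
Real and complex places of the fields generated by `p`-th roots.
-/

set_option autoImplicit false

open Pool.Agent.TH965.St NumberField NumberField.InfinitePlace Polynomial

namespace Pool.Agent.TH349.ORP

theorem real_of_isReal {K : Type} [Field K] {φ : K →+* ℂ} (h : ComplexEmbedding.IsReal φ) (x : K) :
    ∃ r : ℝ, φ x = r := by
  have h1 : ComplexEmbedding.conjugate φ = φ := ComplexEmbedding.isReal_iff.1 h
  have h2 : (starRingEnd ℂ) (φ x) = φ x := by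
    rw [← ComplexEmbedding.conjugate_coe_eq, h1]
  exact ⟨(φ x).re, (Complex.conj_eq_iff_re.1 h2).symm⟩

theorem real_unique {K : Type} [Field K] {p : ℕ} (hp : Odd p) {φ ψ : K →+* ℂ}
    (h : ComplexEmbedding.IsReal φ) (h' : ComplexEmbedding.IsReal ψ) {x : K} {a : ℚ}
    (hx : x ^ p = (a : K)) : φ x = ψ x := by
  obtain ⟨r, hr⟩ := real_of_isReal h x
  obtain ⟨s, hs⟩ := real_of_isReal h' x
  have h1 : ((r ^ p : ℝ) : ℂ) = ((s ^ p : ℝ) : ℂ) := by
    push_cast
    rw [← hr, ← hs, ← map_pow, ← map_pow, hx, map_ratCast, map_ratCast]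
  have h2 : r ^ p = s ^ p := Complex.ofReal_injective h1
  have h3 : r = s := hp.strictMono_pow.injective h2
  rw [hr, hs, h3]

theorem not_real {K : Type} [Field K] {p : ℕ} (hp : Odd p) {φ : K →+* ℂ} {x : K}
    (hx : x ^ p = 1) (hx1 : x ≠ 1) : ¬ ComplexEmbedding.IsReal φ := by
  intro h
  obtain ⟨r, hr⟩ := real_of_isReal h x
  have h1 : ((r ^ p : ℝ) : ℂ) = ((1 ^ p : ℝ) : ℂ) := by
    push_cast
    rw [← hr, ← map_pow, hx, map_one, one_pow]
  have h2 : r ^ p = 1 ^ p := Complex.ofReal_injective h1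
  have h3 : r = 1 := hp.strictMono_pow.injective h2
  apply hx1
  apply φ.injective
  rw [hr, h3, map_one, Complex.ofReal_one]

theorem nrReal_le_one {K : Type} [Field K] [NumberField K]
    (h : ∀ φ ψ : K →+* ℂ, ComplexEmbedding.IsReal φ → ComplexEmbedding.IsReal ψ → φ = ψ) :
    nrRealPlaces K ≤ 1 := by
  classical
  rw [← card_real_embeddings, Fintype.card_le_one_iff]
  rintro ⟨φ, hφ⟩ ⟨ψ, hψ⟩
  exact Subtype.ext (h φ ψ hφ hψ)

theorem nrReal_zero {K : Type} [Field K] [NumberField K]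
    (h : ∀ φ : K →+* ℂ, ¬ ComplexEmbedding.IsReal φ) :
    nrRealPlaces K = 0 := by
  classical
  rw [← card_real_embeddings, Fintype.card_eq_zero_iff]
  exact ⟨fun φ => h φ.1 φ.2⟩

theorem not_pow {p : ℕ} (hp : p.Prime) (q : ℕ) [Fact q.Prime] {a : ℚ} (ha : padicValRat q a = 1)
    (b : ℚ) : b ^ p ≠ a := by
  intro h
  rw [← h] at ha
  by_cases hb : b = 0
  · rw [hb, zero_pow hp.ne_zero] at ha
    simp at ha
  · rw [padicValRat.pow] at ha
    have h1 : (p : ℤ) ∣ 1 := ⟨_, ha.symm⟩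
    have h2 : p ∣ 1 := by exact_mod_cast h1
    exact hp.one_lt.ne' (Nat.dvd_one.1 h2)

theorem finrank_ge {K : Type} [Field K] [NumberField K] {p : ℕ} (hp : p.Prime) (q : ℕ)
    [Fact q.Prime] {a : ℚ} (ha : padicValRat q a = 1) {x : K} (hx : x ^ p = (a : K)) :
    p ≤ Module.finrank ℚ K := by
  have h1 : Irreducible (X ^ p - C a : ℚ[X]) := X_pow_sub_C_irreducible_of_prime hp (not_pow hp q ha)
  have h2 : (X ^ p - C a : ℚ[X]) = minpoly ℚ x := by
    apply minpoly.eq_of_irreducible_of_monic h1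
    · rw [map_sub, map_pow, aeval_X, aeval_C, hx, eq_ratCast, sub_self]
    · exact monic_X_pow_sub_C a hp.ne_zero
  have h3 := minpoly.natDegree_le (A := ℚ) x
  rw [← h2, natDegree_X_pow_sub_C] at h3
  exact h3

theorem finrank_ge' {K : Type} [Field K] [NumberField K] {p : ℕ} (hp : p.Prime) {x : K}
    (hx : x ^ p = 1) (hx1 : x ≠ 1) : p - 1 ≤ Module.finrank ℚ K := by
  have h1 : IsPrimitiveRoot x p := by
    have := Fact.mk hp
    have h2 : orderOf x = p := orderOf_eq_prime hx hx1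
    rw [← h2]
    exact IsPrimitiveRoot.orderOf x
  have h2 := cyclotomic_eq_minpoly_rat h1 hp.pos
  have h3 := minpoly.natDegree_le (A := ℚ) x
  rw [← h2, natDegree_cyclotomic, Nat.totient_prime hp] at h3
  exact h3

theorem val_two : padicValRat 2 (2 : ℚ) = 1 := by
  have := padicValRat.self (p := 2) (by norm_num)
  exact_mod_cast this

theorem val_three (i : ℕ) : padicValRat 3 ((2 : ℚ) ^ i * 3) = 1 := by
  have : Fact (Nat.Prime 3) := ⟨Nat.prime_three⟩
  rw [padicValRat.mul (pow_ne_zero _ two_ne_zero) three_ne_zero, padicValRat.pow]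
  have h1 : padicValRat 3 (3 : ℚ) = 1 := by
    have := padicValRat.self (p := 3) (by norm_num)
    exact_mod_cast this
  have h2 : padicValRat 3 (2 : ℚ) = 0 := by
    have h3 : padicValRat 3 ((2 : ℕ) : ℚ) = 0 := by
      rw [padicValRat.of_nat, padicValNat.eq_zero_of_not_dvd (by norm_num)]
      rfl
    exact_mod_cast h3
  rw [h1, h2, mul_zero, zero_add]

end Pool.Agent.TH349.ORP
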