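import Pool.Agent.TH349.ORP.Places

/-!
The trivial character of `G_ℚ` as a difference of permutation characters of fields with at most one
real place.
-/

set_option autoImplicit false

open Pool.Agent.TH965.St NumberField NumberField.InfinitePlace

namespace Pool.Agent.TH349.ORP

/-- The field `ℚ(μ_p, 2^(1/p), 3^(1/p))`. -/
noncomputable def Lp (p : ℕ) : IntermediateField ℚ Qb :=
  IntermediateField.adjoin ℚ {x | x ^ p = 1 ∨ x ^ p = 2 ∨ x ^ p = 3}

/-- `K` is a number field contained in `ℚ(μ_p, 2^(1/p), 3^(1/p))` with at most one real place and at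
least `(p - 1)/2` complex places. -/
def Few (p : ℕ) (K : IntermediateField ℚ Qb) : Prop :=
  K ≤ Lp p ∧ ∃ _ : NumberField K, nrRealPlaces K ≤ 1 ∧ (p - 1) / 2 ≤ nrComplexPlaces K

theorem nf_fld (s : Qb × Qb) : NumberField (fld s) := by
  rw [nf_iff]
  unfold fld
  have : Finite ({s.1, s.2} : Set Qb) := Set.toFinite _
  apply IntermediateField.finiteDimensional_adjoin
  intro x _
  exact (Algebra.IsAlgebraic.isAlgebraic (R := ℚ) x).isIntegral

theorem fld_hom_ext (s : Qb × Qb) (φ ψ : fld s →+* ℂ)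
    (h1 : φ ⟨s.1, IntermediateField.subset_adjoin _ _ (by simp)⟩ =
      ψ ⟨s.1, IntermediateField.subset_adjoin _ _ (by simp)⟩)
    (h2 : φ ⟨s.2, IntermediateField.subset_adjoin _ _ (by simp)⟩ =
      ψ ⟨s.2, IntermediateField.subset_adjoin _ _ (by simp)⟩) : φ = ψ := by
  have h3 : φ.toRatAlgHom = ψ.toRatAlgHom := by
    refine IntermediateField.algHom_ext_of_eq_adjoin ℚ (S := fld s) (s := {s.1, s.2}) rfl ?_
    rintro x (rfl | rfl)
    · exact h1
    · exact h2
  ext x
  exact DFunLike.congr_fun h3 x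

theorem few_real {p : ℕ} (hp : p.Prime) (ho : Odd p) (q : ℕ) [Fact q.Prime] (s : Qb × Qb)
    {a b : ℚ} (ha : padicValRat q a = 1) (h1 : s.1 ^ p = (a : Qb)) (h2 : s.2 ^ p = (b : Qb))
    (hL : fld s ≤ Lp p) : Few p (fld s) := by
  have hnf := nf_fld s
  refine ⟨hL, hnf, ?_, ?_⟩
  · apply nrReal_le_one
    intro φ ψ hφ hψ
    apply fld_hom_ext
    · apply real_unique ho hφ hψ (a := a)
      apply Subtype.ext
      push_cast
      exact h1
    · apply real_unique ho hφ hψ (a := b)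
      apply Subtype.ext
      push_cast
      exact h2
  · have h3 : nrRealPlaces (fld s) ≤ 1 := by
      apply nrReal_le_one
      intro φ ψ hφ hψ
      apply fld_hom_ext
      · apply real_unique ho hφ hψ (a := a)
        apply Subtype.ext
        push_cast
        exact h1
      · apply real_unique ho hφ hψ (a := b)
        apply Subtype.ext
        push_cast
        exact h2
    have h4 := finrank_ge (K := fld s) hp q ha
      (x := ⟨s.1, IntermediateField.subset_adjoin _ _ (by simp)⟩) (by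
        apply Subtype.ext
        push_cast
        exact h1)
    have h5 := card_add_two_mul_card_eq_rank (fld s)
    omega

theorem few_complex {p : ℕ} (hp : p.Prime) (ho : Odd p) (s : Qb × Qb)
    (h1 : s.1 ^ p = 1) (h2 : s.1 ≠ 1) (hL : fld s ≤ Lp p) : Few p (fld s) := by
  have hnf := nf_fld s
  have h3 : nrRealPlaces (fld s) = 0 := by
    apply nrReal_zero
    intro φ
    apply not_real ho (x := ⟨s.1, IntermediateField.subset_adjoin _ _ (by simp)⟩)
    · apply Subtype.ext
      push_cast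
      exact h1
    · intro h
      exact h2 (congrArg Subtype.val h)
  have h4 := finrank_ge' (K := fld s) hp
      (x := ⟨s.1, IntermediateField.subset_adjoin _ _ (by simp)⟩) (by
        apply Subtype.ext
        push_cast
        exact h1) (by
        intro h
        exact h2 (congrArg Subtype.val h))
  have h5 := card_add_two_mul_card_eq_rank (fld s)
  exact ⟨hL, hnf, by omega, by omega⟩

/-- `f` is a sum of permutation characters of fields with the property `Q`. -/
def IsRep (Q : IntermediateField ℚ Qb → Prop) (f : GQ → ℕ) : Prop :=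
  ∃ (n : ℕ) (K : Fin n → IntermediateField ℚ Qb), (∀ a, Q (K a)) ∧ ∀ g, f g = ∑ a, perm (K a) g

variable {Q : IntermediateField ℚ Qb → Prop}

theorem IsRep.zero : IsRep Q (fun _ => 0) :=
  ⟨0, Fin.elim0, fun a => a.elim0, fun g => by simp⟩

theorem IsRep.add {f f' : GQ → ℕ} (h : IsRep Q f) (h' : IsRep Q f') :
    IsRep Q (fun g => f g + f' g) := by
  obtain ⟨n, K, h1, h2⟩ := h
  obtain ⟨n', K', h1', h2'⟩ := h'
  refine ⟨n + n', Fin.append K K', fun a => ?_, fun g => ?_⟩
  · refine Fin.addCases (fun i => ?_) (fun i => ?_) a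
    · rw [Fin.append_left]; exact h1 i
    · rw [Fin.append_right]; exact h1' i
  · rw [Fin.sum_univ_add]
    simp only [Fin.append_left, Fin.append_right]
    rw [h2, h2']

theorem IsRep.sum {ι : Type} (s : Finset ι) {f : ι → GQ → ℕ} (h : ∀ i ∈ s, IsRep Q (f i)) :
    IsRep Q (fun g => ∑ i ∈ s, f i g) := by
  classical
  induction s using Finset.induction_on with
  | empty => simpa using IsRep.zero
  | insert a s ha ih =>
    have h1 := (h a (Finset.mem_insert_self a s)).add
      (ih fun i hi => h i (Finset.mem_insert_of_mem hi))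
    simpa only [Finset.sum_insert ha] using h1

theorem IsRep.mul (n : ℕ) {f : GQ → ℕ} (h : IsRep Q f) : IsRep Q (fun g => n * f g) := by
  have h1 := IsRep.sum (Finset.range n) (f := fun _ => f) (fun _ _ => h)
  simpa only [Finset.sum_const, Finset.card_range, smul_eq_mul] using h1

theorem isRep_prod (A B : Set Qb) (hA : ∀ (g : GQ), ∀ x ∈ A, g x ∈ A)
    (hB : ∀ (g : GQ), ∀ x ∈ B, g x ∈ B) (fA : A.Finite) (fB : B.Finite)
    (h : ∀ x ∈ A, ∀ y ∈ B, Q (fld (x, y))) : IsRep Q (fun g => nfix A g * nfix B g) := by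
  obtain ⟨n, r, h1, h2⟩ := fixc_fields (prodS A B hA hB) (finite_prodS A B hA hB fA fB)
  refine ⟨n, fun a => fld (r a), fun a => ?_, fun g => ?_⟩
  · exact h (r a).1 (h1 a).1 (r a).2 (h1 a).2
  · rw [← h2 g, fixc_prod]

theorem isRep_single (A : Set Qb) (hA : ∀ (g : GQ), ∀ x ∈ A, g x ∈ A) (fA : A.Finite)
    (h : ∀ x ∈ A, Q (fld (x, 1))) : IsRep Q (fun g => nfix A g) := by
  have h1 := isRep_prod (Q := Q) A {1} hA (fun g x hx => by
    rw [Set.mem_singleton_iff] at hx ⊢
    rw [hx, map_one]) fA (Set.finite_singleton _) (fun x hx y hy => by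
      rw [Set.mem_singleton_iff] at hy
      rw [hy]
      exact h x hx)
  simpa only [nfix_one, mul_one] using h1

theorem finite_roots {p : ℕ} (hp : 0 < p) (a : Qb) : {x : Qb | x ^ p = a}.Finite := by
  classical
  have h : {x : Qb | x ^ p = a} ⊆ ((Polynomial.nthRoots p a).toFinset : Set Qb) := by
    intro x hx
    rw [Finset.mem_coe, Multiset.mem_toFinset, Polynomial.mem_nthRoots hp]
    exact hx
  exact (Finset.finite_toSet _).subset h

theorem fld_le {s : Qb × Qb} {L : IntermediateField ℚ Qb} (h1 : s.1 ∈ L) (h2 : s.2 ∈ L) :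
    fld s ≤ L := by
  unfold fld
  rw [IntermediateField.adjoin_le_iff]
  rintro x (rfl | rfl)
  · exact h1
  · exact h2

/-- **The trivial character as a difference of permutation characters.** -/
theorem trivial_character {p : ℕ} (hp : p.Prime) (h2 : p ≠ 2) :
    ∃ (n : ℕ) (K : Fin n → IntermediateField ℚ Qb) (n' : ℕ)
      (K' : Fin n' → IntermediateField ℚ Qb), (∀ a, Few p (K a)) ∧ (∀ b, Few p (K' b)) ∧
      ∀ g : GQ, ∑ a, perm (K a) g = 1 + ∑ b, perm (K' b) g := by
  have hp' := Fact.mk hp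
  have ho : Odd p := hp.odd_of_ne_two h2
  have h3 : Fact (Nat.Prime 3) := ⟨Nat.prime_three⟩
  obtain ⟨u, hu⟩ := IsAlgClosed.exists_pow_nat_eq (2 : Qb) hp.pos
  obtain ⟨v, hv⟩ := IsAlgClosed.exists_pow_nat_eq (3 : Qb) hp.pos
  have hu0 : u ≠ 0 := by
    rintro rfl
    rw [zero_pow hp.ne_zero] at hu
    exact two_ne_zero hu.symm
  have hv0 : v ≠ 0 := by
    rintro rfl
    rw [zero_pow hp.ne_zero] at hv
    exact three_ne_zero hv.symm
  have : NeZero (p : Qb) := ⟨Nat.cast_ne_zero.2 hp.ne_zero⟩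
  obtain ⟨ζ, hζ⟩ := HasEnoughRootsOfUnity.exists_primitiveRoot Qb p
  have stab : ∀ (a : ℚ) (g : GQ), ∀ x ∈ {x : Qb | x ^ p = (a : Qb)}, g x ∈ {x : Qb | x ^ p = (a : Qb)} := by
    intro a g x hx
    have hx' : x ^ p = (a : Qb) := hx
    show g x ^ p = (a : Qb)
    rw [← map_pow, hx', map_ratCast]
  have stab1 : ∀ (g : GQ), ∀ x ∈ {x : Qb | x ^ p = 1 ∧ x ≠ 1}, g x ∈ {x : Qb | x ^ p = 1 ∧ x ≠ 1} := by
    rintro g x ⟨hx, hx1⟩
    refine ⟨by rw [← map_pow, hx, map_one], fun h => hx1 ?_⟩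
    apply g.injective
    rw [h, map_one]
  have e2 : u ^ p = ((2 : ℚ) : Qb) := by rw [hu]; norm_num
  have e3 : v ^ p = ((3 : ℚ) : Qb) := by rw [hv]; norm_num
  have ei : ∀ i : ℕ, (u ^ i * v) ^ p = (((2 : ℚ) ^ i * 3 : ℚ) : Qb) := by
    intro i
    rw [mul_pow, ← pow_mul, mul_comm i p, pow_mul, hu, hv]
    push_cast
    ring
  have m1 : ∀ x : Qb, x ^ p = 1 → x ∈ Lp p := fun x hx =>
    IntermediateField.subset_adjoin _ _ (Or.inl hx)
  have m2 : ∀ x : Qb, x ^ p = ((2 : ℚ) : Qb) → x ∈ Lp p := fun x hx =>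
    IntermediateField.subset_adjoin _ _ (Or.inr (Or.inl (by rw [hx]; norm_num)))
  have m3 : ∀ x : Qb, x ^ p = ((3 : ℚ) : Qb) → x ∈ Lp p := fun x hx =>
    IntermediateField.subset_adjoin _ _ (Or.inr (Or.inr (by rw [hx]; norm_num)))
  have mi : ∀ (i : ℕ) (x : Qb), x ^ p = (((2 : ℚ) ^ i * 3 : ℚ) : Qb) → x ∈ Lp p := by
    intro i x hx
    rw [← ei i] at hx
    obtain ⟨j, rfl⟩ := exists_zz_mul hζ (mul_ne_zero (pow_ne_zero i hu0) hv0) hx
    exact mul_mem (m1 _ (zz_pow hζ j)) (mul_mem (pow_mem (m2 u e2) i) (m3 v e3))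
  have o1 : (1 : Qb) ^ p = ((1 : ℚ) : Qb) := by simp
  have v2 : padicValRat 2 (2 : ℚ) = 1 := val_two
  -- the pieces
  have r2 : IsRep (Few p) (fun g => nfix {x : Qb | x ^ p = u ^ p} g) := by
    rw [e2]
    refine isRep_single _ (stab 2) (finite_roots hp.pos _) fun x hx => ?_
    exact few_real hp ho 2 (x, 1) v2 hx o1 (fld_le (m2 x hx) (one_mem _))
  have r23 : IsRep (Few p) (fun g => nfix {x : Qb | x ^ p = u ^ p} g *
      nfix {x : Qb | x ^ p = v ^ p} g) := by
    rw [e2, e3]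
    refine isRep_prod _ _ (stab 2) (stab 3) (finite_roots hp.pos _) (finite_roots hp.pos _)
      fun x hx y hy => ?_
    exact few_real hp ho 2 (x, y) v2 hx hy (fld_le (m2 x hx) (m3 y hy))
  have ri : ∀ i : ℕ, IsRep (Few p) (fun g => nfix {x : Qb | x ^ p = (u ^ i * v) ^ p} g) := by
    intro i
    rw [ei i]
    refine isRep_single _ (stab _) (finite_roots hp.pos _) fun x hx => ?_
    exact few_real hp ho 3 (x, 1) (val_three i) hx o1 (fld_le (mi i x hx) (one_mem _))
  have fin1 : {x : Qb | x ^ p = 1 ∧ x ≠ 1}.Finite :=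
    (finite_roots hp.pos 1).subset fun x hx => hx.1
  have rz : IsRep (Few p) (fun g => nfix {x : Qb | x ^ p = 1 ∧ x ≠ 1} g) := by
    refine isRep_single _ stab1 fin1 fun x hx => ?_
    exact few_complex hp ho (x, 1) hx.1 hx.2 (fld_le (m1 x hx.1) (one_mem _))
  have rz2 : IsRep (Few p) (fun g => nfix {x : Qb | x ^ p = 1 ∧ x ≠ 1} g *
      nfix {x : Qb | x ^ p = u ^ p} g) := by
    rw [e2]
    refine isRep_prod _ _ stab1 (stab 2) fin1 (finite_roots hp.pos _) fun x hx y hy => ?_
    exact few_complex hp ho (x, y) hx.1 hx.2 (fld_le (m1 x hx.1) (m2 y hy))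
  obtain ⟨n, K, hK, hK'⟩ := rz2.add (IsRep.sum (Finset.range p) fun i _ => ri i)
  obtain ⟨n', K', hK1, hK1'⟩ := (r23.add (r2.mul (p - 2))).add rz
  refine ⟨n, K, n', K', hK, hK1, fun g => ?_⟩
  rw [← hK' g, ← hK1' g]
  exact nfix_identity hζ hu0 hv0 g (by rw [e2, map_ratCast]) (by rw [e3, map_ratCast])

end Pool.Agent.TH349.ORP
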